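import Pool.Agent.Helper29.CP.Base

/-!
CP-2: Magnus-Witt by elimination (MP_82cbb9_al).
-/

set_option autoImplicit false

open scoped commutatorElement

namespace Pool.Agent.CP

section mw_alg

variable {Z : Type} (w : Z → ℕ)

/-- weight of a word -/
def mwWt (l : List Z) : ℕ := (l.map w).sum

/-- the word as an element of the free algebra -/
noncomputable def mwWord (l : List Z) : FreeAlgebra ℚ Z := (l.map (FreeAlgebra.ι ℚ)).prod

/-- the span of the words of weight at least `i` -/
def mwFl (i : ℕ) : Submodule ℚ (FreeAlgebra ℚ Z) :=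
  Submodule.span ℚ {u | ∃ l : List Z, i ≤ mwWt w l ∧ u = mwWord l}

theorem mwWord_mem (l : List Z) {i : ℕ} (h : i ≤ mwWt w l) : mwWord l ∈ mwFl w i :=
  Submodule.subset_span ⟨l, h, rfl⟩

theorem mwFl_anti : Antitone (mwFl w) := by
  intro i j h
  refine Submodule.span_mono ?_
  rintro u ⟨l, hl, rfl⟩
  exact ⟨l, h.trans hl, rfl⟩

theorem mwFl_mul {i j : ℕ} {a b : FreeAlgebra ℚ Z} (ha : a ∈ mwFl w i) (hb : b ∈ mwFl w j) :
    a * b ∈ mwFl w (i + j) := by
  have h := Submodule.mul_mem_mul ha hb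
  unfold mwFl at h
  rw [Submodule.span_mul_span] at h
  refine Submodule.span_mono ?_ h
  rintro _ ⟨_, ⟨l, hl, rfl⟩, _, ⟨l', hl', rfl⟩, rfl⟩
  refine ⟨l ++ l', ?_, ?_⟩
  · simp only [mwWt, List.map_append, List.sum_append] at *
    exact add_le_add hl hl'
  · simp [mwWord]

theorem mwFl_one : (1 : FreeAlgebra ℚ Z) ∈ mwFl w 0 := by
  have := mwWord_mem w [] (i := 0) (Nat.zero_le _)
  simpa [mwWord] using this

theorem mwFl_ι (z : Z) {i : ℕ} (h : i ≤ w z) : FreeAlgebra.ι ℚ z ∈ mwFl w i := by
  have := mwWord_mem w [z] (i := i) (by simpa [mwWt] using h)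
  simpa [mwWord] using this

theorem mwFl_zero : mwFl w 0 = ⊤ := by
  have key : ∀ u : FreeAlgebra ℚ Z, u ∈ mwFl w 0 := by
    intro u
    induction u using FreeAlgebra.induction with
    | grade0 r =>
      rw [Algebra.algebraMap_eq_smul_one]
      exact Submodule.smul_mem _ _ (mwFl_one w)
    | grade1 z => exact mwFl_ι w z (Nat.zero_le _)
    | mul a b ha hb =>
      have h := mwFl_mul w ha hb
      rwa [add_zero] at h
    | add a b ha hb => exact Submodule.add_mem _ ha hb
  exact eq_top_iff.2 fun u _ => key u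

/-- an algebra endomorphism which raises the generators raises everything -/
theorem mw_twist (a : ℕ) (t : FreeAlgebra ℚ Z →ₐ[ℚ] FreeAlgebra ℚ Z)
    (ht : ∀ z, t (FreeAlgebra.ι ℚ z) - FreeAlgebra.ι ℚ z ∈ mwFl w (w z + a)) (i : ℕ)
    {u : FreeAlgebra ℚ Z} (hu : u ∈ mwFl w i) : t u - u ∈ mwFl w (i + a) := by
  have key : ∀ l : List Z, t (mwWord l) - mwWord l ∈ mwFl w (mwWt w l + a) := by
    intro l
    induction l with
    | nil => simp [mwWord]
    | cons z l ih =>
      have h1 : mwWord (z :: l) = FreeAlgebra.ι ℚ z * mwWord l := by simp [mwWord]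
      have h2 : mwWt w (z :: l) = w z + mwWt w l := by simp [mwWt]
      have h3 : t (mwWord l) ∈ mwFl w (mwWt w l) := by
        have := Submodule.add_mem _ (mwFl_anti w (Nat.le_add_right _ a) ih)
          (mwWord_mem w l le_rfl)
        simpa using this
      have h4 : t (mwWord (z :: l)) - mwWord (z :: l)
          = (t (FreeAlgebra.ι ℚ z) - FreeAlgebra.ι ℚ z) * t (mwWord l)
            + FreeAlgebra.ι ℚ z * (t (mwWord l) - mwWord l) := by
        rw [h1, map_mul]; noncomm_ring
      rw [h4, h2]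
      refine Submodule.add_mem _ ?_ ?_
      · have := mwFl_mul w (ht z) h3
        rwa [show w z + a + mwWt w l = w z + mwWt w l + a by ring] at this
      · have := mwFl_mul w (mwFl_ι w z le_rfl) ih
        rwa [show w z + (mwWt w l + a) = w z + mwWt w l + a by ring] at this
  unfold mwFl at hu
  induction hu using Submodule.span_induction with
  | mem u hu =>
    obtain ⟨l, hl, rfl⟩ := hu
    exact mwFl_anti w (Nat.add_le_add_right hl a) (key l)
  | zero => simp
  | add x y _ _ hx hy =>
    have : t (x + y) - (x + y) = (t x - x) + (t y - y) := by rw [map_add]; abel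
    rw [this]
    exact Submodule.add_mem _ hx hy
  | smul r x _ hx =>
    have : t (r • x) - r • x = r • (t x - x) := by rw [map_smul, smul_sub]
    rw [this]
    exact Submodule.smul_mem _ _ hx

/-- the truncated free algebra -/
noncomputable def mwMod (c : ℕ) : FilMod c where
  A := FreeAlgebra ℚ Z ⧸ mwFl w c
  Fil i := (mwFl w i).map (mwFl w c).mkQ
  top := by rw [mwFl_zero, Submodule.map_top, Submodule.range_mkQ]
  anti := fun i j h => Submodule.map_mono (mwFl_anti w h)
  bot := by rw [Submodule.mkQ_map_self]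

/-- the class of an element -/
noncomputable def mwMk (c : ℕ) : FreeAlgebra ℚ Z →ₗ[ℚ] (mwMod w c).A := (mwFl w c).mkQ

theorem mwMk_surj (c : ℕ) : Function.Surjective (mwMk w c) := Submodule.mkQ_surjective _

theorem mwMk_eq {c : ℕ} {u v : FreeAlgebra ℚ Z} (h : u - v ∈ mwFl w c) :
    mwMk w c u = mwMk w c v := (Submodule.Quotient.eq _).2 h

theorem mw_mem_Fil {c i : ℕ} {a : (mwMod w c).A} (ha : a ∈ (mwMod w c).Fil i) :
    ∃ u ∈ mwFl w i, mwMk w c u = a := ha

theorem mw_mk_mem {c i : ℕ} {u : FreeAlgebra ℚ Z} (hu : u ∈ mwFl w i) :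
    mwMk w c u ∈ (mwMod w c).Fil i := ⟨u, hu, rfl⟩

end mw_alg

theorem mw_unip {c : ℕ} (M : FilMod c) (T : Module.End ℚ M.A)
    (hT : ∀ i, ∀ a ∈ M.Fil i, T a - a ∈ M.Fil (i + 1)) : Function.Bijective T := by
  have h : ∀ k, ∀ a, ((T - 1) ^ k) a ∈ M.Fil k := by
    intro k
    induction k with
    | zero => intro a; rw [M.top]; trivial
    | succ n ih =>
      intro a
      rw [pow_succ']
      exact hT n _ (ih a)
  have hn : IsNilpotent (T - 1) := ⟨c, by
    ext a
    have := h c a
    rw [M.bot] at this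
    simpa using this⟩
  have hu : IsUnit T := by
    have := hn.isUnit_one_add
    rwa [add_sub_cancel] at this
  exact (Module.End.isUnit_iff T).1 hu

section mw_op

variable {Z : Type} (w : Z → ℕ) (c : ℕ)

/-- operators on the truncated free algebra -/
theorem mw_exists_op (T : FreeAlgebra ℚ Z →ₗ[ℚ] FreeAlgebra ℚ Z)
    (hT : ∀ i, ∀ u ∈ mwFl w i, T u - u ∈ mwFl w (i + 1)) :
    ∃ E : (mwMod w c).A ≃ₗ[ℚ] (mwMod w c).A, ∀ u, E (mwMk w c u) = mwMk w c (T u) := by
  have h0 : mwFl w c ≤ (mwFl w c).comap T := by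
    intro u hu
    have := Submodule.add_mem _ (mwFl_anti w (Nat.le_succ c) (hT c u hu)) hu
    simpa using this
  let T' : Module.End ℚ (mwMod w c).A := Submodule.mapQ _ _ T h0
  have hT' : ∀ u, T' (mwMk w c u) = mwMk w c (T u) := fun u => rfl
  refine ⟨LinearEquiv.ofBijective T' (mw_unip (mwMod w c) T' ?_), hT'⟩
  intro i a ha
  obtain ⟨u, hu, rfl⟩ := mw_mem_Fil w ha
  rw [hT', ← map_sub]
  exact mw_mk_mem w (hT i u hu)

/-- If the product of the `1 + v_z` is trivial in the truncated free algebra then it is trivial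
in each filtered module. -/
theorem mw_universal
    (g : FreeGroup Z →* ((mwMod w c).A ≃ₗ[ℚ] (mwMod w c).A))
    (hg : ∀ z u, g (FreeGroup.of z) (mwMk w c u) = mwMk w c ((1 + FreeAlgebra.ι ℚ z) * u))
    (ω : FreeGroup Z) (hω : g ω = 1) (M : FilMod c) (ψ : FreeGroup Z →* (M.A ≃ₗ[ℚ] M.A))
    (hψ : ∀ z i, ∀ a ∈ M.Fil i, ψ (FreeGroup.of z) a - a ∈ M.Fil (i + w z)) : ψ ω = 1 := by
  let L : FreeAlgebra ℚ Z →ₐ[ℚ] Module.End ℚ M.A :=
    FreeAlgebra.lift ℚ fun z => ((ψ (FreeGroup.of z) : M.A ≃ₗ[ℚ] M.A) : Module.End ℚ M.A) - 1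
  have hL : ∀ z a, L (FreeAlgebra.ι ℚ z) a = ψ (FreeGroup.of z) a - a := by
    intro z a
    simp only [L, FreeAlgebra.lift_ι_apply]
    rfl
  have hword : ∀ l : List Z, ∀ i, ∀ a ∈ M.Fil i, L (mwWord l) a ∈ M.Fil (i + mwWt w l) := by
    intro l
    induction l with
    | nil => intro i a ha; simpa [mwWord, mwWt] using ha
    | cons z l ih =>
      intro i a ha
      have h1 : mwWord (z :: l) = FreeAlgebra.ι ℚ z * mwWord l := by simp [mwWord]
      have h2 : mwWt w (z :: l) = mwWt w l + w z := by simp [mwWt, add_comm]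
      rw [h1, map_mul, h2, ← add_assoc]
      have := hψ z _ _ (ih i a ha)
      rw [← hL] at this
      exact this
  have hc : ∀ u ∈ mwFl w c, L u = 0 := by
    intro u hu
    unfold mwFl at hu
    induction hu using Submodule.span_induction with
    | mem u hu =>
      obtain ⟨l, hl, rfl⟩ := hu
      ext a
      have h1 := hword l 0 a (by rw [M.top]; trivial)
      rw [zero_add] at h1
      have h2 := M.anti hl h1
      rw [M.bot] at h2
      simpa using h2
    | zero => simp
    | add x y _ _ hx hy => rw [map_add, hx, hy, add_zero]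
    | smul r x _ hx => rw [map_smul, hx, smul_zero]
  let L' : (mwMod w c).A →ₗ[ℚ] Module.End ℚ M.A := (mwFl w c).liftQ L.toLinearMap (by
    intro u hu
    exact hc u hu)
  have hL' : ∀ u, L' (mwMk w c u) = L u := fun u => rfl
  have hgen : ∀ (z : Z) (x : (mwMod w c).A) (a : M.A),
      L' (g (FreeGroup.of z) x) a = ψ (FreeGroup.of z) (L' x a) := by
    intro z x a
    obtain ⟨u, rfl⟩ := mwMk_surj w c x
    rw [hg, hL', hL', map_mul, map_add, map_one]
    have : ((1 + L (FreeAlgebra.ι ℚ z)) * L u) a = L u a + L (FreeAlgebra.ι ℚ z) (L u a) := by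
      rw [Module.End.mul_apply, LinearMap.add_apply, Module.End.one_apply]
    rw [this, hL]
    abel
  have hall : ∀ (σ : FreeGroup Z) (x : (mwMod w c).A) (a : M.A),
      L' (g σ x) a = ψ σ (L' x a) := by
    intro σ
    induction σ using FreeGroup.induction_on with
    | C1 => intro x a; simp
    | of z => exact hgen z
    | inv_of z _ =>
      intro x a
      have h1 := hgen z (g (FreeGroup.of z)⁻¹ x) a
      have h2 : g (FreeGroup.of z) (g (FreeGroup.of z)⁻¹ x) = x := by
        rw [← LinearEquiv.mul_apply, ← map_mul, mul_inv_cancel, map_one]; rfl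
      rw [h2] at h1
      rw [h1, ← LinearEquiv.mul_apply, ← map_mul, inv_mul_cancel, map_one]
      rfl
    | mul σ τ hσ hτ =>
      intro x a
      rw [map_mul, map_mul, LinearEquiv.mul_apply, LinearEquiv.mul_apply, hσ, hτ]
  ext a
  have h1 := hall ω (mwMk w c 1) a
  have h2 : (1 : (mwMod w c).A ≃ₗ[ℚ] (mwMod w c).A) (mwMk w c 1) = mwMk w c 1 := rfl
  rw [hω, h2, hL', map_one L] at h1
  exact h1.symm

end mw_op

/-- The elimination in an abstract group. -/
theorem mw_group {X : Type} (x0 : X) {Q : Type} [Group Q] (c : ℕ) (xh : Q)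
    (yh : {y : X // y ≠ x0} × ℕ → Q)
    (hrel : ∀ y i, xh * yh (y, i) * xh⁻¹ = yh (y, i + 1) * yh (y, i))
    (htriv : ∀ y i, c ≤ i → yh (y, i) = 1)
    (F : FreeGroup X →* Q) (hF0 : F (FreeGroup.of x0) = xh)
    (hF : ∀ y : {y : X // y ≠ x0}, F (FreeGroup.of y.1) = yh (y, 0))
    (e : FreeGroup X →* Multiplicative ℤ)
    (he0 : e (FreeGroup.of x0) = Multiplicative.ofAdd 1)
    (he : ∀ y, y ≠ x0 → e (FreeGroup.of y) = 1) (σ : FreeGroup X) :
    ∃ ω : FreeGroup ({y : X // y ≠ x0} × ℕ),
      F σ = FreeGroup.lift yh ω * xh ^ (Multiplicative.toAdd (e σ)) := by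
  have hmem : ∀ z, yh z ∈ Subgroup.closure (Set.range yh) := fun z =>
    Subgroup.subset_closure ⟨z, rfl⟩
  have hA : ∀ h ∈ Subgroup.closure (Set.range yh),
      xh * h * xh⁻¹ ∈ Subgroup.closure (Set.range yh) := by
    have : Subgroup.closure (Set.range yh) ≤
        (Subgroup.closure (Set.range yh)).comap (MulAut.conj xh).toMonoidHom := by
      rw [Subgroup.closure_le]
      rintro _ ⟨⟨y, i⟩, rfl⟩
      have h1 : xh * yh (y, i) * xh⁻¹ ∈ Subgroup.closure (Set.range yh) := by
        rw [hrel]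
        exact mul_mem (hmem _) (hmem _)
      exact h1
    exact fun h hh => this hh
  have hdesc : ∀ y k i, c ≤ i + k →
      xh⁻¹ * yh (y, i) * xh ∈ Subgroup.closure (Set.range yh) := by
    intro y k
    induction k with
    | zero =>
      intro i hi
      rw [htriv y i (by simpa using hi)]
      simp
    | succ k ih =>
      intro i hi
      have h1 := ih (i + 1) (by omega)
      have h2 : xh⁻¹ * yh (y, i) * xh = (xh⁻¹ * yh (y, i + 1) * xh)⁻¹ * yh (y, i) := by
        have h3 : yh (y, i + 1) = xh * yh (y, i) * xh⁻¹ * (yh (y, i))⁻¹ := by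
          rw [hrel]; group
        rw [h3]; group
      rw [h2]
      exact mul_mem (inv_mem h1) (hmem _)
  have hB : ∀ h ∈ Subgroup.closure (Set.range yh),
      xh⁻¹ * h * xh ∈ Subgroup.closure (Set.range yh) := by
    have : Subgroup.closure (Set.range yh) ≤
        (Subgroup.closure (Set.range yh)).comap (MulAut.conj xh⁻¹).toMonoidHom := by
      rw [Subgroup.closure_le]
      rintro _ ⟨⟨y, i⟩, rfl⟩
      have h1 : xh⁻¹ * yh (y, i) * (xh⁻¹)⁻¹ ∈ Subgroup.closure (Set.range yh) := by
        rw [inv_inv]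
        exact hdesc y c i (by omega)
      exact h1
    intro h hh
    have h1 : xh⁻¹ * h * (xh⁻¹)⁻¹ ∈ Subgroup.closure (Set.range yh) := this hh
    rwa [inv_inv] at h1
  have hN : xh ∈ Subgroup.normalizer (Subgroup.closure (Set.range yh) : Set Q) := by
    rw [Subgroup.mem_normalizer_iff]
    intro h
    refine ⟨hA h, fun h' => ?_⟩
    have := hB _ h'
    rwa [show xh⁻¹ * (xh * h * xh⁻¹) * xh = h by group] at this
  have hNz : ∀ (m : ℤ) (h : Q), h ∈ Subgroup.closure (Set.range yh) →
      xh ^ m * h * (xh ^ m)⁻¹ ∈ Subgroup.closure (Set.range yh) := by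
    intro m h hh
    exact ((Subgroup.mem_normalizer_iff).1 (Subgroup.zpow_mem _ hN m) h).1 hh
  have key : ∀ σ : FreeGroup X, ∃ ω ∈ Subgroup.closure (Set.range yh),
      F σ = ω * xh ^ (Multiplicative.toAdd (e σ)) := by
    have hof : ∀ x : X, ∃ ω ∈ Subgroup.closure (Set.range yh),
        F (FreeGroup.of x) = ω * xh ^ (Multiplicative.toAdd (e (FreeGroup.of x))) := by
      intro x
      by_cases hx : x = x0
      · subst hx
        refine ⟨1, one_mem _, ?_⟩
        rw [hF0, he0]
        simp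
      · refine ⟨yh (⟨x, hx⟩, 0), hmem _, ?_⟩
        rw [hF ⟨x, hx⟩, he x hx]
        simp
    intro σ
    induction σ using FreeGroup.induction_on with
    | C1 => exact ⟨1, one_mem _, by simp⟩
    | of x => exact hof x
    | inv_of x _ =>
      obtain ⟨ω, hω, h⟩ := hof x
      refine ⟨xh ^ (- Multiplicative.toAdd (e (FreeGroup.of x))) * ω⁻¹ *
        (xh ^ (- Multiplicative.toAdd (e (FreeGroup.of x))))⁻¹, hNz _ _ (inv_mem hω), ?_⟩
      rw [map_inv, map_inv, h, toAdd_inv]
      group
    | mul x y hx hy =>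
      obtain ⟨ω, hω, h⟩ := hx
      obtain ⟨ω', hω', h'⟩ := hy
      refine ⟨ω * (xh ^ (Multiplicative.toAdd (e x)) * ω' *
        (xh ^ (Multiplicative.toAdd (e x)))⁻¹), mul_mem hω (hNz _ _ hω'), ?_⟩
      rw [map_mul, map_mul, h, h', toAdd_mul, zpow_add]
      group
  obtain ⟨ω, hω, h⟩ := key σ
  rw [← FreeGroup.range_lift_eq_closure] at hω
  obtain ⟨ω', rfl⟩ := hω
  exact ⟨ω', h⟩

/-- the iterated commutators -/
def mwP {P : Type} [Group P] (q p : P) : ℕ → P
  | 0 => p
  | i + 1 => q * mwP q p i * q⁻¹ * (mwP q p i)⁻¹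

theorem mwP_mem {P : Type} [Group P] (Pf : ℕ → Subgroup P)
    (hcomm : ∀ i j, 1 ≤ i → 1 ≤ j → ⁅Pf i, Pf j⁆ ≤ Pf (i + j)) {q p : P} {a b : ℕ} (ha : 1 ≤ a)
    (hb : 1 ≤ b) (hq : q ∈ Pf a) (hp : p ∈ Pf b) (i : ℕ) : mwP q p i ∈ Pf (b + i * a) := by
  induction i with
  | zero => simpa [mwP] using hp
  | succ i ih =>
    have h1 : ⁅q, mwP q p i⁆ ∈ Pf (a + (b + i * a)) :=
      hcomm _ _ ha (by omega) (Subgroup.commutator_mem_commutator hq ih)
    rw [commutatorElement_def] at h1
    rwa [show b + (i + 1) * a = a + (b + i * a) by ring]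

/-- the shear representation of `ℤ` -/
def mwShear : Multiplicative ℤ →* ((ℚ × ℚ) ≃ₗ[ℚ] (ℚ × ℚ)) where
  toFun n :=
    { toFun := fun v => (v.1, v.2 + ((Multiplicative.toAdd n : ℤ) : ℚ) * v.1)
      map_add' := by intro v v'; ext <;> simp <;> ring
      map_smul' := by intro r v; ext <;> simp <;> ring
      invFun := fun v => (v.1, v.2 - ((Multiplicative.toAdd n : ℤ) : ℚ) * v.1)
      left_inv := by intro v; ext <;> simp
      right_inv := by intro v; ext <;> simp }
  map_one' := by ext v <;> simp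
  map_mul' m n := by
    ext v <;> simp [LinearEquiv.mul_apply] <;> ring

/-- the filtered module detecting the exponent sum -/
def mwShearMod (a c : ℕ) (h : a < c) : FilMod c where
  A := ℚ × ℚ
  Fil i := if i = 0 then ⊤ else if i ≤ a then Submodule.prod ⊥ ⊤ else ⊥
  top := by simp
  anti := by
    intro i j hij
    by_cases hi : i = 0
    · simp [hi]
    · have hj : j ≠ 0 := by omega
      by_cases hja : j ≤ a
      · simp [hi, hj, hja, hij.trans hja]
      · simp [hi, hj, hja]
  bot := by
    have h1 : c ≠ 0 := by omega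
    have h2 : ¬ c ≤ a := by omega
    simp [h1, h2]

theorem mw_exponent {X : Type} (w : X → ℕ) (c : ℕ) (x0 : X) (h1 : 1 ≤ w x0) (h2 : w x0 < c)
    (e : FreeGroup X →* Multiplicative ℤ)
    (he0 : e (FreeGroup.of x0) = Multiplicative.ofAdd 1)
    (he : ∀ y, y ≠ x0 → e (FreeGroup.of y) = 1) (σ : FreeGroup X)
    (hσ : ∀ (M : FilMod c) (φ : FreeGroup X →* (M.A ≃ₗ[ℚ] M.A)),
      (∀ x i, ∀ a ∈ M.Fil i, φ (FreeGroup.of x) a - a ∈ M.Fil (i + w x)) → φ σ = 1) :
    e σ = 1 := by
  have h := hσ (mwShearMod (w x0) c h2) (mwShear.comp e) (by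
    intro x i (v : ℚ × ℚ) hv
    change ((mwShear.comp e) (FreeGroup.of x) v - v : ℚ × ℚ) ∈ _
    by_cases hx : x = x0
    · subst hx
      have h3 : ((mwShear.comp e) (FreeGroup.of x) v - v : ℚ × ℚ) = ((0, v.1) : ℚ × ℚ) := by
        have : (mwShear.comp e) (FreeGroup.of x) v = ((v.1, v.2 + v.1) : ℚ × ℚ) := by
          rw [MonoidHom.comp_apply, he0]
          simp [mwShear]
        rw [this]
        ext <;> simp
      rw [h3]
      change ((0, v.1) : ℚ × ℚ) ∈ (if i + w x = 0 then (⊤ : Submodule ℚ (ℚ × ℚ)) else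
        if i + w x ≤ w x then Submodule.prod ⊥ ⊤ else ⊥)
      change v ∈ (if i = 0 then (⊤ : Submodule ℚ (ℚ × ℚ)) else
        if i ≤ w x then Submodule.prod ⊥ ⊤ else ⊥) at hv
      rw [if_neg (by omega)]
      by_cases hi : i = 0
      · rw [if_pos (by omega)]
        simp
      · rw [if_neg (by omega)]
        rw [if_neg hi] at hv
        have hv0 : v.1 = 0 := by
          split_ifs at hv
          · exact (Submodule.mem_prod.1 hv).1
          · rw [Submodule.mem_bot] at hv
            rw [hv]; rfl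
        rw [hv0]
        simp
    · have h3 : ((mwShear.comp e) (FreeGroup.of x) v - v : ℚ × ℚ) = 0 := by
        rw [MonoidHom.comp_apply, he x hx, map_one]
        exact sub_self _
      rw [h3]
      exact Submodule.zero_mem _)
  have h3 := congrArg (fun E : (ℚ × ℚ) ≃ₗ[ℚ] (ℚ × ℚ) => (E (1, 0)).2) h
  have h4 : ((mwShear (e σ)) (1, 0)).2 = ((Multiplicative.toAdd (e σ) : ℤ) : ℚ) := by
    simp [mwShear]
  have h5 : ((Multiplicative.toAdd (e σ) : ℤ) : ℚ) = 0 := by
    rw [← h4]
    exact h3
  have h6 : Multiplicative.toAdd (e σ) = 0 := by exact_mod_cast h5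
  exact toAdd_eq_zero.1 h6

theorem mw_trivial {c : ℕ} {P : Type} [Group P] (Pf : ℕ → Subgroup P) (anti : Antitone Pf)
    (hbot : Pf c = ⊥) {X : Type} (w : X → ℕ) (hw : ∀ x, c ≤ w x) (p : X → P)
    (hp : ∀ x, p x ∈ Pf (w x)) (σ : FreeGroup X) : FreeGroup.lift p σ = 1 := by
  have h : FreeGroup.lift p = 1 := by
    ext x
    have := anti (hw x) (hp x)
    rw [hbot, Subgroup.mem_bot] at this
    simpa using this
  rw [h]; rfl

open Classical in
theorem mw_main (c : ℕ) {P : Type} [Group P] (Pf : ℕ → Subgroup P) (anti : Antitone Pf)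
    (hbot : Pf c = ⊥) (hcomm : ∀ i j, 1 ≤ i → 1 ≤ j → ⁅Pf i, Pf j⁆ ≤ Pf (i + j)) :
    ∀ (k a n : ℕ), c ≤ a + k → 1 ≤ a → ∀ (X : Type) (w : X → ℕ), (∀ x, a ≤ w x) →
      {x | w x < c}.Finite → {x | w x = a}.ncard ≤ n → ∀ (p : X → P), (∀ x, p x ∈ Pf (w x)) →
      ∀ σ : FreeGroup X, (∀ (M : FilMod c) (φ : FreeGroup X →* (M.A ≃ₗ[ℚ] M.A)),
      (∀ x i, ∀ a ∈ M.Fil i, φ (FreeGroup.of x) a - a ∈ M.Fil (i + w x)) → φ σ = 1) →
      FreeGroup.lift p σ = 1 := by
  intro k
  induction k with
  | zero =>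
    intro a n hc ha X w hw hfin hn p hp σ hσ
    exact mw_trivial Pf anti hbot w (fun x => (by simpa using hc : c ≤ a).trans (hw x)) p hp σ
  | succ k ihk =>
    intro a n
    induction n with
    | zero =>
      intro hc ha X w hw hfin hn p hp σ hσ
      by_cases hac : c ≤ a
      · exact mw_trivial Pf anti hbot w (fun x => hac.trans (hw x)) p hp σ
      have hf : {x | w x = a}.Finite := hfin.subset (by
        intro x hx
        simp only [Set.mem_ofPred_eq] at hx ⊢
        omega)
      have he : {x | w x = a} = ∅ := (Set.ncard_eq_zero hf).1 (by omega)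
      refine ihk (a + 1) _ (by omega) (by omega) X w ?_ hfin le_rfl p hp σ hσ
      intro x
      have h1 := hw x
      have h2 : w x ≠ a := fun h => by
        have : x ∈ {x | w x = a} := h
        rw [he] at this
        exact this
      omega
    | succ n ihn =>
      intro hc ha X w hw hfin hn p hp σ hσ
      by_cases hac : c ≤ a
      · exact mw_trivial Pf anti hbot w (fun x => hac.trans (hw x)) p hp σ
      have hf : {x | w x = a}.Finite := hfin.subset (by
        intro x hx
        simp only [Set.mem_ofPred_eq] at hx ⊢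
        omega)
      rcases Set.eq_empty_or_nonempty {x | w x = a} with he | ⟨x0, hx0⟩
      · refine ihk (a + 1) _ (by omega) (by omega) X w ?_ hfin le_rfl p hp σ hσ
        intro x
        have h1 := hw x
        have h2 : w x ≠ a := fun h => by
          have : x ∈ {x | w x = a} := h
          rw [he] at this
          exact this
        omega
      simp only [Set.mem_ofPred_eq] at hx0
      -- the new generators
      let w' : {y : X // y ≠ x0} × ℕ → ℕ := fun z => w z.1.1 + z.2 * a
      let p' : {y : X // y ≠ x0} × ℕ → P := fun z => mwP (p x0) (p z.1.1) z.2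
      have hw' : ∀ z, a ≤ w' z := fun z => (hw z.1.1).trans (Nat.le_add_right _ _)
      have hp' : ∀ z, p' z ∈ Pf (w' z) := fun z =>
        mwP_mem Pf hcomm ha (ha.trans (hw _)) (by rw [← hx0]; exact hp x0) (hp _) _
      have hfin' : {z | w' z < c}.Finite := by
        have h1 : {y : {y : X // y ≠ x0} | w y.1 < c}.Finite :=
          hfin.preimage (fun _ _ _ _ h => Subtype.ext h)
        refine (h1.prod (Set.finite_Iio c)).subset ?_
        rintro ⟨y, i⟩ hz
        simp only [Set.mem_ofPred_eq, w'] at hz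
        refine ⟨?_, ?_⟩
        · simp only [Set.mem_ofPred_eq]
          exact lt_of_le_of_lt (Nat.le_add_right _ _) hz
        · simp only [Set.mem_Iio]
          have : i * 1 ≤ i * a := Nat.mul_le_mul_left i ha
          omega
      have hn' : {z | w' z = a}.ncard ≤ n := by
        have h1 : {z | w' z = a}.ncard ≤ ({x | w x = a} \ {x0}).ncard := by
          have hz0 : ∀ z, w' z = a → z.2 = 0 ∧ w z.1.1 = a := by
            intro z hz
            simp only [w'] at hz
            have h2 := hw z.1.1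
            have h3 : z.2 * a = 0 := by omega
            rcases Nat.mul_eq_zero.1 h3 with h | h
            · exact ⟨h, by rw [h3] at hz; omega⟩
            · omega
          refine Set.ncard_le_ncard_of_injOn (fun z => z.1.1) ?_ ?_ (hf.sdiff)
          · intro z hz
            exact ⟨(hz0 z hz).2, z.1.2⟩
          · intro z hz z' hz' h
            exact Prod.ext (Subtype.ext h) ((hz0 z hz).1.trans (hz0 z' hz').1.symm)
        have h2 := Set.ncard_sdiff_singleton_add_one (a := x0) (s := {x | w x = a}) hx0 hf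
        omega
      -- the operators
      let t : FreeAlgebra ℚ ({y : X // y ≠ x0} × ℕ) →ₐ[ℚ] FreeAlgebra ℚ ({y : X // y ≠ x0} × ℕ) :=
        FreeAlgebra.lift ℚ (fun z => FreeAlgebra.ι ℚ z + FreeAlgebra.ι ℚ (z.1, z.2 + 1)
          + FreeAlgebra.ι ℚ (z.1, z.2 + 1) * FreeAlgebra.ι ℚ z)
      have htι : ∀ z, t (FreeAlgebra.ι ℚ z) = FreeAlgebra.ι ℚ z + FreeAlgebra.ι ℚ (z.1, z.2 + 1)
          + FreeAlgebra.ι ℚ (z.1, z.2 + 1) * FreeAlgebra.ι ℚ z := by
        intro z
        simp only [t, FreeAlgebra.lift_ι_apply]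
      have ht : ∀ z, t (FreeAlgebra.ι ℚ z) - FreeAlgebra.ι ℚ z ∈ mwFl w' (w' z + a) := by
        intro z
        have h0 : w' (z.1, z.2 + 1) = w' z + a := by
          simp only [w']; ring
        have h1 : FreeAlgebra.ι ℚ (z.1, z.2 + 1) ∈ mwFl w' (w' z + a) :=
          mwFl_ι w' _ (by rw [h0])
        have h2 : t (FreeAlgebra.ι ℚ z) - FreeAlgebra.ι ℚ z = FreeAlgebra.ι ℚ (z.1, z.2 + 1)
          + FreeAlgebra.ι ℚ (z.1, z.2 + 1) * FreeAlgebra.ι ℚ z := by
          rw [htι]; abel
        rw [h2]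
        refine Submodule.add_mem _ h1 ?_
        exact mwFl_anti w' (Nat.le_add_right _ _) (mwFl_mul w' h1 (mwFl_ι w' z le_rfl))
      have ht1 : ∀ i, ∀ u ∈ mwFl w' i, t u - u ∈ mwFl w' (i + a) := fun i u hu =>
        mw_twist w' a t ht i hu
      obtain ⟨th, hth⟩ := mw_exists_op w' c t.toLinearMap
        (fun i u hu => mwFl_anti w' (by omega) (ht1 i u hu))
      have hg0 : ∀ z, ∀ i, ∀ u ∈ mwFl w' i,
          (1 + FreeAlgebra.ι ℚ z) * u - u ∈ mwFl w' (i + w' z) := by
        intro z i u hu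
        have h1 := mwFl_mul w' (mwFl_ι w' z le_rfl) hu
        rw [add_mul, one_mul, add_sub_cancel_left, add_comm i]
        exact h1
      have hg1 : ∀ z, ∃ E : (mwMod w' c).A ≃ₗ[ℚ] (mwMod w' c).A,
          ∀ u, E (mwMk w' c u) = mwMk w' c ((1 + FreeAlgebra.ι ℚ z) * u) := by
        intro z
        refine mw_exists_op w' c (LinearMap.mulLeft ℚ (1 + FreeAlgebra.ι ℚ z)) ?_
        intro i u hu
        exact mwFl_anti w' (by have := hw' z; omega) (hg0 z i u hu)
      choose gz hgz using hg1
      -- the action of the free group on `X`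
      let φ : FreeGroup X →* ((mwMod w' c).A ≃ₗ[ℚ] (mwMod w' c).A) :=
        FreeGroup.lift (fun x => if h : x = x0 then th else gz (⟨x, h⟩, 0))
      have hφ0 : φ (FreeGroup.of x0) = th := by simp [φ]
      have hφ1 : ∀ y : {y : X // y ≠ x0}, φ (FreeGroup.of y.1) = gz (y, 0) := by
        intro y
        simp [φ, y.2]
      have hφσ : φ σ = 1 := by
        refine hσ (mwMod w' c) φ ?_
        intro x i v hv
        obtain ⟨u, hu, rfl⟩ := mw_mem_Fil w' hv
        by_cases hx : x = x0
        · subst hx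
          rw [hφ0, hth, ← map_sub, hx0]
          exact mw_mk_mem w' (ht1 i u hu)
        · rw [hφ1 ⟨x, hx⟩, hgz, ← map_sub]
          have := hg0 (⟨x, hx⟩, 0) i u hu
          refine mw_mk_mem w' ?_
          simpa [w'] using this
      let e : FreeGroup X →* Multiplicative ℤ :=
        FreeGroup.lift (fun x => if x = x0 then Multiplicative.ofAdd 1 else 1)
      have he0 : e (FreeGroup.of x0) = Multiplicative.ofAdd 1 := by simp [e]
      have he1 : ∀ y, y ≠ x0 → e (FreeGroup.of y) = 1 := by
        intro y hy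
        simp [e, hy]
      have heσ : e σ = 1 :=
        mw_exponent w c x0 (by omega) (by omega) e he0 he1 σ hσ
      -- elimination
      obtain ⟨ω, hω⟩ := mw_group x0 c ((p x0, th) : P × ((mwMod w' c).A ≃ₗ[ℚ] (mwMod w' c).A))
        (fun z => (p' z, gz z)) (by
          intro y i
          refine Prod.ext ?_ ?_
          · change p x0 * mwP (p x0) (p y.1) i * (p x0)⁻¹ = mwP (p x0) (p y.1) (i + 1) *
              mwP (p x0) (p y.1) i
            simp [mwP]
          · change th * gz (y, i) * th⁻¹ = gz (y, i + 1) * gz (y, i)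
            rw [mul_inv_eq_iff_eq_mul]
            refine LinearEquiv.ext fun v => ?_
            obtain ⟨u, rfl⟩ := mwMk_surj w' c v
            rw [LinearEquiv.mul_apply, LinearEquiv.mul_apply, LinearEquiv.mul_apply, hgz, hth, hth,
              hgz, hgz]
            congr 1
            change t ((1 + FreeAlgebra.ι ℚ (y, i)) * u) = _ * (_ * t u)
            rw [map_mul, map_add, map_one, htι]
            noncomm_ring) (by
          intro y i hi
          have hwi : c ≤ w' (y, i) := by
            simp only [w']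
            have : i * 1 ≤ i * a := Nat.mul_le_mul_left i ha
            omega
          refine Prod.ext ?_ ?_
          · have := anti hwi (hp' (y, i))
            rw [hbot, Subgroup.mem_bot] at this
            exact this
          · change gz (y, i) = 1
            refine LinearEquiv.ext fun v => ?_
            obtain ⟨u, rfl⟩ := mwMk_surj w' c v
            rw [hgz]
            refine mwMk_eq w' ?_
            have h1 := hg0 (y, i) 0 u (by rw [mwFl_zero]; trivial)
            exact mwFl_anti w' (by omega) h1)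
        ((FreeGroup.lift p).prod φ) (by
          rw [MonoidHom.prod_apply, hφ0, FreeGroup.lift_apply_of]) (by
          intro y
          rw [MonoidHom.prod_apply, hφ1, FreeGroup.lift_apply_of]
          rfl) e he0 he1 σ
      rw [heσ, toAdd_one, zpow_zero, mul_one, MonoidHom.prod_apply] at hω
      have h1 : FreeGroup.lift p σ = FreeGroup.lift p' ω := by
        have h2 := congrArg Prod.fst hω
        have h3 : (MonoidHom.fst P ((mwMod w' c).A ≃ₗ[ℚ] (mwMod w' c).A)).comp
            (FreeGroup.lift (fun z => (p' z, gz z))) = FreeGroup.lift p' := by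
          ext z
          simp
        rw [← h3]
        exact h2
      have h2 : FreeGroup.lift gz ω = 1 := by
        have h2 := congrArg Prod.snd hω
        have h3 : (MonoidHom.snd P ((mwMod w' c).A ≃ₗ[ℚ] (mwMod w' c).A)).comp
            (FreeGroup.lift (fun z => (p' z, gz z))) = FreeGroup.lift gz := by
          refine FreeGroup.ext_hom _ _ fun z => ?_
          simp
        rw [← h3, ← hφσ]
        exact h2.symm
      rw [h1]
      refine ihn (by omega) ha _ w' hw' hfin' hn' p' hp' ω ?_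
      intro M ψ hψ
      exact mw_universal w' c (FreeGroup.lift gz) (by
        intro z u
        rw [FreeGroup.lift_apply_of, hgz]) ω h2 M ψ hψ

/-- CP-2 (Magnus–Witt by elimination) -/
theorem magnus_witt {X : Type} [Fintype X] (w : X → ℕ) (hw : ∀ x, 1 ≤ w x) (c : ℕ)
    {P : Type} [Group P] (Pf : ℕ → Subgroup P) (anti : Antitone Pf) (hbot : Pf c = ⊥)
    (hcomm : ∀ i j, 1 ≤ i → 1 ≤ j → ⁅Pf i, Pf j⁆ ≤ Pf (i + j)) (p : X → P)
    (hp : ∀ x, p x ∈ Pf (w x)) (σ : FreeGroup X)
    (hσ : ∀ (M : FilMod c) (φ : FreeGroup X →* (M.A ≃ₗ[ℚ] M.A)),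
      (∀ x i, ∀ a ∈ M.Fil i, φ (FreeGroup.of x) a - a ∈ M.Fil (i + w x)) → φ σ = 1) :
    FreeGroup.lift p σ = 1 :=
  mw_main c Pf anti hbot hcomm c 1 _ (by omega) le_rfl X w hw (Set.toFinite _) le_rfl p hp σ hσ

end Pool.Agent.CP
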